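import Pool.Agent.Q121.Rotor.Compare

set_option autoImplicit false

/-!
# Escape sequences of rotor walks on trees are closed downwards

The definitions (`step`, `walk`, `Returns`, `next`, `escapeSeq`) are in
`Pool.Agent.Q121.Rotor.Defs`.

A rooted tree with root `ρ` of degree one, all degrees finite and ordered children is encoded by the
function `b : List ℕ → ℕ` giving the numbers of children: the vertices other than `ρ` are addresses,
`[]` is the child of `ρ`, and the children of the vertex `v` are `v ++ [1], ..., v ++ [b v]`.
-/

namespace Pool.Agent.Results.MP_4b601f_co.DownwardClosed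

open Q121.Rotor

/-- **Positive answer.** Let `r` be a rotor configuration on the tree `b` and let `e'` be a sequence
with `e' ≤ e(T, r)`. Then `e'` is the escape sequence of some rotor configuration `r'` on the same
tree. -/
theorem result (b : List ℕ → ℕ) (r : List ℕ → ℕ) (hr : ∀ v, r v ≤ b v) (e' : ℕ → ℕ)
    (he' : ∀ n, e' n ≤ escapeSeq b r n) :
    ∃ r' : List ℕ → ℕ, (∀ v, r' v ≤ b v) ∧ escapeSeq b r' = e' := by
  classical
  have h01 : ∀ (r : List ℕ → ℕ) (n : ℕ), escapeSeq b r n = if Esc b r n then 1 else 0 := by
    intro r n
    by_cases h : Returns b ((next b)^[n] r)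
    · have h2 : ¬ Esc b r n := fun h' => h' h
      rw [if_neg h2]
      unfold escapeSeq
      rw [if_pos h]
    · have h2 : Esc b r n := h
      rw [if_pos h2]
      unfold escapeSeq
      rw [if_neg h]
  obtain ⟨r', h1, h2⟩ := main b r hr (fun n => e' n = 1) (by
    intro n hn
    by_contra h
    have := he' n
    rw [h01, if_neg h] at this
    omega)
  refine ⟨r', h1, ?_⟩
  funext n
  rw [h01]
  have h4 := he' n
  rw [h01] at h4
  by_cases h : Esc b r' n
  · rw [if_pos h]
    exact ((h2 n).1 h).symm
  · rw [if_neg h]
    have h5 : ¬ e' n = 1 := fun h' => h ((h2 n).2 h')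
    split_ifs at h4 <;> omega

end Pool.Agent.Results.MP_4b601f_co.DownwardClosed
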